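import Pool.Agent.Q38.NC.Cnt

/-! Pairwise coprime tuples with sum zero and a coordinate divisible by a high power of a prime. -/

set_option autoImplicit false

namespace Pool.Agent.Q38.NC

open Finset Filter Topology
open Pool.Agent.H328R2.ABC (rad sum_inv_rad)

/-- no subsum vanishes -/
def NV {n : ℕ} (x : Fin n → ℤ) : Prop :=
  ∀ I : Finset (Fin n), I.Nonempty → I ≠ univ → ∑ i ∈ I, x i ≠ 0

/-- positive coordinates except the first: no vanishing subsum -/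
theorem nv_of_pos {m : ℕ} {x : Fin (m + 1) → ℤ} (h2 : ∑ i, x i = 0)
    (h3 : ∀ j : Fin m, 0 < x j.succ) : NV x := by
  classical
  intro I hI hI2
  have hpos : ∀ J : Finset (Fin (m + 1)), J.Nonempty → (0 : Fin (m + 1)) ∉ J →
      0 < ∑ i ∈ J, x i := by
    intro J hJ hl
    apply sum_pos _ hJ
    intro i hi
    obtain rfl | ⟨j, rfl⟩ := Fin.eq_zero_or_eq_succ i
    · exact absurd hi hl
    · exact h3 j
  by_cases hl : (0 : Fin (m + 1)) ∈ I
  · have hc : (Iᶜ).Nonempty := by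
      rw [nonempty_iff_ne_empty]
      intro h
      exact hI2 ((compl_eq_empty_iff I).1 h)
    have h4 := hpos Iᶜ hc (by rw [mem_compl, not_not]; exact hl)
    have h5 := Finset.sum_add_sum_compl I x
    intro h6
    rw [h6, zero_add, h2] at h5
    rw [h5] at h4
    exact absurd h4 (lt_irrefl _)
  · exact (hpos I hI hl).ne'

/-- the tuple -/
def tup {m : ℕ} (K u : ℕ) (p : Fin m → ℕ) : Fin (m + 1 + 1) → ℤ :=
  Fin.cons (-((K * u + ∑ j, p j : ℕ) : ℤ)) (Fin.cons ((K * u : ℕ) : ℤ) fun j => (p j : ℤ))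

/-- the data of the construction -/
structure Dat {m : ℕ} (q k u : ℕ) (p : Fin m → ℕ) : Prop where
  hq : q.Prime
  hu : u.Prime
  hp : ∀ j, (p j).Prime
  inj : Function.Injective p
  pq : ∀ j, p j ≠ q
  pu : ∀ j, p j ≠ u
  uq : u ≠ q
  us : ¬ u ∣ ∑ j, p j
  qs : ¬ q ∣ ∑ j, p j
  pd : ∀ j, ¬ p j ∣ q ^ k * u + ∑ j, p j

variable {m q k u : ℕ} {p : Fin m → ℕ}

theorem Dat.cop (h : Dat q k u p) (i j : Fin (m + 1 + 1)) (hij : i ≠ j) :
    Int.gcd (tup (q ^ k) u p i) (tup (q ^ k) u p j) = 1 := by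
  -- the three kinds of pairs
  have c01 : Nat.Coprime (q ^ k * u + ∑ j, p j) (q ^ k * u) := by
    rw [Nat.coprime_self_add_left]
    refine Nat.Coprime.mul_right (Nat.Coprime.pow_right k ?_) ?_
    · exact ((Nat.Prime.coprime_iff_not_dvd h.hq).2 h.qs).symm
    · exact ((Nat.Prime.coprime_iff_not_dvd h.hu).2 h.us).symm
  have c0 : ∀ j, Nat.Coprime (q ^ k * u + ∑ j, p j) (p j) := fun j =>
    ((Nat.Prime.coprime_iff_not_dvd (h.hp j)).2 (h.pd j)).symm
  have c1 : ∀ j, Nat.Coprime (q ^ k * u) (p j) := by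
    intro j
    refine Nat.Coprime.mul_left (Nat.Coprime.pow_left k ?_) ?_
    · exact (Nat.coprime_primes h.hq (h.hp j)).2 (h.pq j).symm
    · exact (Nat.coprime_primes h.hu (h.hp j)).2 (h.pu j).symm
  have c2 : ∀ i j, i ≠ j → Nat.Coprime (p i) (p j) := fun i j hij =>
    (Nat.coprime_primes (h.hp i) (h.hp j)).2 fun h' => hij (h.inj h')
  have d01 : Int.gcd (tup (q ^ k) u p 0) (tup (q ^ k) u p (Fin.succ 0)) = 1 := by
    show Int.gcd (-((q ^ k * u + ∑ j, p j : ℕ) : ℤ)) ((q ^ k * u : ℕ) : ℤ) = 1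
    rw [Int.neg_gcd, Int.gcd_natCast_natCast]
    exact c01
  have d0 : ∀ j : Fin m, Int.gcd (tup (q ^ k) u p 0) (tup (q ^ k) u p (Fin.succ (Fin.succ j))) = 1 := by
    intro j
    show Int.gcd (-((q ^ k * u + ∑ j, p j : ℕ) : ℤ)) ((p j : ℕ) : ℤ) = 1
    rw [Int.neg_gcd, Int.gcd_natCast_natCast]
    exact c0 j
  have d1 : ∀ j : Fin m, Int.gcd (tup (q ^ k) u p (Fin.succ 0))
      (tup (q ^ k) u p (Fin.succ (Fin.succ j))) = 1 := by
    intro j
    show Int.gcd ((q ^ k * u : ℕ) : ℤ) ((p j : ℕ) : ℤ) = 1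
    rw [Int.gcd_natCast_natCast]
    exact c1 j
  have d2 : ∀ i j : Fin m, i ≠ j → Int.gcd (tup (q ^ k) u p (Fin.succ (Fin.succ i)))
      (tup (q ^ k) u p (Fin.succ (Fin.succ j))) = 1 := by
    intro i j hij
    show Int.gcd ((p i : ℕ) : ℤ) ((p j : ℕ) : ℤ) = 1
    rw [Int.gcd_natCast_natCast]
    exact c2 i j hij
  obtain rfl | ⟨i, rfl⟩ := Fin.eq_zero_or_eq_succ i
  · obtain rfl | ⟨j, rfl⟩ := Fin.eq_zero_or_eq_succ j
    · exact absurd rfl hij
    · obtain rfl | ⟨j, rfl⟩ := Fin.eq_zero_or_eq_succ j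
      · exact d01
      · exact d0 j
  · obtain rfl | ⟨i, rfl⟩ := Fin.eq_zero_or_eq_succ i
    · obtain rfl | ⟨j, rfl⟩ := Fin.eq_zero_or_eq_succ j
      · rw [Int.gcd_comm]
        exact d01
      · obtain rfl | ⟨j, rfl⟩ := Fin.eq_zero_or_eq_succ j
        · exact absurd rfl hij
        · exact d1 j
    · obtain rfl | ⟨j, rfl⟩ := Fin.eq_zero_or_eq_succ j
      · rw [Int.gcd_comm]
        exact d0 i
      · obtain rfl | ⟨j, rfl⟩ := Fin.eq_zero_or_eq_succ j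
        · rw [Int.gcd_comm]
          exact d1 i
        · refine d2 i j ?_
          rintro rfl
          exact hij rfl

theorem Dat.adm (h : Dat q k u p) : Adm (tup (q ^ k) u p) := by
  have hK : 0 < q ^ k * u := Nat.mul_pos (pow_pos h.hq.pos k) h.hu.pos
  refine ⟨?_, h.cop, ?_⟩
  · intro i
    obtain rfl | ⟨i, rfl⟩ := Fin.eq_zero_or_eq_succ i
    · show -((q ^ k * u + ∑ j, p j : ℕ) : ℤ) ≠ 0
      rw [neg_ne_zero]
      have : 0 < q ^ k * u + ∑ j, p j := by omega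
      exact_mod_cast this.ne'
    · obtain rfl | ⟨i, rfl⟩ := Fin.eq_zero_or_eq_succ i
      · show ((q ^ k * u : ℕ) : ℤ) ≠ 0
        exact_mod_cast hK.ne'
      · show ((p i : ℕ) : ℤ) ≠ 0
        exact_mod_cast (h.hp i).pos.ne'
  · unfold tup
    rw [Fin.sum_cons, Fin.sum_cons]
    push_cast
    ring

theorem Dat.nv (h : Dat q k u p) : NV (tup (q ^ k) u p) := by
  have hK : 0 < q ^ k * u := Nat.mul_pos (pow_pos h.hq.pos k) h.hu.pos
  refine nv_of_pos h.adm.sum fun j => ?_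
  obtain rfl | ⟨j, rfl⟩ := Fin.eq_zero_or_eq_succ j
  · show (0 : ℤ) < ((q ^ k * u : ℕ) : ℤ)
    exact_mod_cast hK
  · show (0 : ℤ) < ((p j : ℕ) : ℤ)
    exact_mod_cast (h.hp j).pos

theorem ht_tup : ht (tup (q ^ k) u p) ≤ q ^ k * u + ∑ j, p j := by
  refine ht_le fun i => ?_
  obtain rfl | ⟨i, rfl⟩ := Fin.eq_zero_or_eq_succ i
  · show (-((q ^ k * u + ∑ j, p j : ℕ) : ℤ)).natAbs ≤ _
    rw [Int.natAbs_neg, Int.natAbs_natCast]
  · obtain rfl | ⟨i, rfl⟩ := Fin.eq_zero_or_eq_succ i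
    · show ((q ^ k * u : ℕ) : ℤ).natAbs ≤ _
      rw [Int.natAbs_natCast]
      exact Nat.le_add_right _ _
    · show ((p i : ℕ) : ℤ).natAbs ≤ _
      rw [Int.natAbs_natCast]
      exact (single_le_sum (fun _ _ => Nat.zero_le _) (mem_univ i)).trans (Nat.le_add_left _ _)

theorem le_ht_tup (j : Fin m) : p j ≤ ht (tup (q ^ k) u p) := by
  have h := le_ht (tup (q ^ k) u p) (Fin.succ (Fin.succ j))
  have e : (tup (q ^ k) u p (Fin.succ (Fin.succ j))).natAbs = p j := by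
    show ((p j : ℕ) : ℤ).natAbs = p j
    rw [Int.natAbs_natCast]
  rwa [e] at h

theorem rad_two (h : Dat q k u p) : rad (q ^ k * u) ≤ q * u := by
  have hsub : (q ^ k * u).primeFactors ⊆ {q, u} := by
    intro r hr
    have hr1 := Nat.prime_of_mem_primeFactors hr
    have hr2 := Nat.dvd_of_mem_primeFactors hr
    rw [mem_insert, mem_singleton]
    rcases (Nat.Prime.dvd_mul hr1).1 hr2 with h1 | h1
    · exact Or.inl ((Nat.prime_dvd_prime_iff_eq hr1 h.hq).1 (hr1.dvd_of_dvd_pow h1))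
    · exact Or.inr ((Nat.prime_dvd_prime_iff_eq hr1 h.hu).1 h1)
  have h1 : rad (q ^ k * u) ∣ ∏ r ∈ ({q, u} : Finset ℕ), r :=
    Finset.prod_dvd_prod_of_subset _ _ _ hsub
  rw [prod_pair h.uq.symm] at h1
  exact Nat.le_of_dvd (Nat.mul_pos h.hq.pos h.hu.pos) h1

theorem RX_tup (h : Dat q k u p) :
    (RX (tup (q ^ k) u p) : ℝ) ≤ ((q ^ k * u + ∑ j, p j : ℕ) : ℝ) * (q * u : ℕ) * ∏ j, (p j : ℝ) := by
  rw [RX_eq h.cop]
  unfold PR
  rw [Fin.prod_univ_succ, Fin.prod_univ_succ, ← mul_assoc]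
  have e0 : (tup (q ^ k) u p 0).natAbs = q ^ k * u + ∑ j, p j := by
    show (-((q ^ k * u + ∑ j, p j : ℕ) : ℤ)).natAbs = _
    rw [Int.natAbs_neg, Int.natAbs_natCast]
  have e1 : (tup (q ^ k) u p (Fin.succ 0)).natAbs = q ^ k * u := by
    show ((q ^ k * u : ℕ) : ℤ).natAbs = _
    rw [Int.natAbs_natCast]
  have e2 : ∀ j : Fin m, (tup (q ^ k) u p (Fin.succ (Fin.succ j))).natAbs = p j := by
    intro j
    show ((p j : ℕ) : ℤ).natAbs = p j
    rw [Int.natAbs_natCast]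
  have hK : 0 < q ^ k * u := Nat.mul_pos (pow_pos h.hq.pos k) h.hu.pos
  rw [e0, e1]
  refine mul_le_mul (mul_le_mul ?_ ?_ (Nat.cast_nonneg _) (Nat.cast_nonneg _)) ?_
    (prod_nonneg fun _ _ => Nat.cast_nonneg _) (by positivity)
  · exact_mod_cast rad_le (by omega)
  · exact_mod_cast rad_two h
  · refine prod_le_prod (fun _ _ => Nat.cast_nonneg _) fun j _ => ?_
    rw [e2]
    exact_mod_cast rad_le (h.hp j).pos.ne'

/-- the tuple determines its data -/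
theorem tup_inj {K : ℕ} (hK : 0 < K) {u u' : ℕ} {p p' : Fin m → ℕ}
    (h : tup K u p = tup K u' p') : u = u' ∧ p = p' := by
  constructor
  · have h1 := congrFun h (Fin.succ 0)
    have h2 : ((K * u : ℕ) : ℤ) = ((K * u' : ℕ) : ℤ) := h1
    have h3 : K * u = K * u' := by exact_mod_cast h2
    exact Nat.eq_of_mul_eq_mul_left hK h3
  · funext j
    have h1 := congrFun h (Fin.succ (Fin.succ j))
    have h2 : ((p j : ℕ) : ℤ) = ((p' j : ℕ) : ℤ) := h1
    exact_mod_cast h2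

end Pool.Agent.Q38.NC
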