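import Mathlib
import Pool.Agent.H328R2.ABC.RadSum

/-! Counting pairwise coprime tuples with sum zero and small radical: the upper bound. -/

set_option autoImplicit false

namespace Pool.Agent.Q38.NC

open Finset
open Pool.Agent.H328R2.ABC (rad sum_inv_rad)

theorem rad_pos (a : ℕ) : 0 < rad a :=
  Finset.prod_pos fun _ hp => (Nat.prime_of_mem_primeFactors hp).pos

theorem rad_dvd (a : ℕ) : rad a ∣ a := Nat.prod_primeFactors_dvd a

theorem rad_le {a : ℕ} (ha : a ≠ 0) : rad a ≤ a := Nat.le_of_dvd (Nat.pos_of_ne_zero ha) (rad_dvd a)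

/-- the cofactor of the radical -/
def co (a : ℕ) : ℕ := a / rad a

theorem rad_mul_co (a : ℕ) : rad a * co a = a := Nat.mul_div_cancel' (rad_dvd a)

theorem co_pos {a : ℕ} (ha : a ≠ 0) : 0 < co a := by
  rcases Nat.eq_zero_or_pos (co a) with h | h
  · exact absurd (by rw [← rad_mul_co a, h, mul_zero]) ha
  · exact h

theorem co_le (a : ℕ) : co a ≤ a := Nat.div_le_self _ _

theorem rad_dvd_rad {a b : ℕ} (hb : b ≠ 0) (h : a ∣ b) : rad a ∣ rad b :=
  Finset.prod_dvd_prod_of_subset _ _ _ (Nat.primeFactors_mono h hb)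

theorem co_dvd {a : ℕ} (ha : a ≠ 0) : co a * rad (co a) ∣ a := by
  have h1 : co a ∣ a := ⟨rad a, by rw [mul_comm]; exact (rad_mul_co a).symm⟩
  calc co a * rad (co a) ∣ co a * rad a := Nat.mul_dvd_mul_left _ (rad_dvd_rad ha h1)
    _ = a := by rw [mul_comm]; exact rad_mul_co a

/-- nonzero integers of absolute value at most `H` -/
noncomputable def ZZ (H : ℕ) : Finset ℤ := (Icc (-(H : ℤ)) H).filter fun z => z ≠ 0

theorem mem_ZZ {H : ℕ} {z : ℤ} : z ∈ ZZ H ↔ z ≠ 0 ∧ z.natAbs ≤ H := by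
  rw [ZZ, mem_filter, mem_Icc]
  omega

theorem sum_ZZ (H : ℕ) (f : ℕ → ℝ) (hf : ∀ k, 0 ≤ f k) :
    ∑ z ∈ ZZ H, f z.natAbs ≤ 2 * ∑ V ∈ Icc 1 H, f V := by
  classical
  rw [← Finset.sum_fiberwise_of_maps_to (g := Int.natAbs) (t := Icc 1 H) (by
    intro z hz
    obtain ⟨h1, h2⟩ := mem_ZZ.1 hz
    exact mem_Icc.2 ⟨Int.natAbs_pos.2 h1, h2⟩), mul_sum]
  refine sum_le_sum fun V _ => ?_
  have h1 : ∀ z ∈ (ZZ H).filter (fun z => z.natAbs = V), f z.natAbs = f V := by
    intro z hz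
    rw [(mem_filter.1 hz).2]
  rw [sum_congr rfl h1, sum_const, nsmul_eq_mul]
  refine mul_le_mul_of_nonneg_right ?_ (hf V)
  have h2 : (ZZ H).filter (fun z => z.natAbs = V) ⊆ {(V : ℤ), -(V : ℤ)} := by
    intro z hz
    have h3 := (mem_filter.1 hz).2
    rw [mem_insert, mem_singleton]
    omega
  exact_mod_cast (card_le_card h2).trans card_le_two

/-- integers of an interval in one residue class -/
theorem card_ap (G : Finset ℤ) (m : ℕ) (hm : 0 < m) (Z : ℝ) (hZ0 : 0 ≤ Z)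
    (hZ : ∀ x ∈ G, |(x : ℝ)| ≤ Z)
    (hG : ∀ x ∈ G, ∀ y ∈ G, (m : ℤ) ∣ x - y) : (G.card : ℝ) ≤ 1 + 2 * Z / m := by
  classical
  have hm' : (0 : ℝ) < m := by exact_mod_cast hm
  rcases G.eq_empty_or_nonempty with h | h
  · rw [h, card_empty, Nat.cast_zero]
    positivity
  · obtain ⟨a, ha, hmin⟩ := G.exists_min_image (fun x => x) h
    have h1 : G.card ≤ (Finset.range (⌊2 * Z / m⌋₊ + 1)).card := by
      refine Finset.card_le_card_of_injOn (fun x => ((x - a) / m).toNat) ?_ ?_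
      · intro x hx
        rw [Finset.mem_coe] at hx
        obtain ⟨k, hk⟩ := hG x hx a ha
        have h2 := hmin x hx
        have h3 : 0 ≤ k := by
          have h4 : 0 ≤ (m : ℤ) * k := by
            rw [← hk]
            exact sub_nonneg.2 h2
          have h5 : (0 : ℤ) < m := by exact_mod_cast hm
          exact nonneg_of_mul_nonneg_right h4 h5
        have h5 : (x - a) / (m : ℤ) = k := by
          rw [hk]
          exact Int.mul_ediv_cancel_left _ (by exact_mod_cast hm.ne')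
        show ((x - a) / (m : ℤ)).toNat ∈ _
        rw [h5, Finset.coe_range, Set.mem_Iio, Nat.lt_succ_iff]
        apply Nat.le_floor
        have h6 : ((k.toNat : ℕ) : ℝ) = (k : ℝ) := by
          have : ((k.toNat : ℕ) : ℤ) = k := Int.toNat_of_nonneg h3
          exact_mod_cast this
        rw [h6, le_div_iff₀ hm']
        have h7 : ((x - a : ℤ) : ℝ) = m * k := by
          rw [hk]
          push_cast
          ring
        push_cast at h7
        have h8 := (abs_le.1 (hZ x hx)).2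
        have h9 := (abs_le.1 (hZ a ha)).1
        linarith
      · intro x hx y hy hxy
        rw [Finset.mem_coe] at hx hy
        obtain ⟨k, hk⟩ := hG x hx a ha
        obtain ⟨l, hl⟩ := hG y hy a ha
        have h5 : (0 : ℤ) < m := by exact_mod_cast hm
        have hk0 : 0 ≤ k := nonneg_of_mul_nonneg_right (by
          rw [← hk]
          exact sub_nonneg.2 (hmin x hx)) h5
        have hl0 : 0 ≤ l := nonneg_of_mul_nonneg_right (by
          rw [← hl]
          exact sub_nonneg.2 (hmin y hy)) h5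
        simp only at hxy
        rw [hk, hl, Int.mul_ediv_cancel_left _ h5.ne', Int.mul_ediv_cancel_left _ h5.ne'] at hxy
        have h6 : k = l := by omega
        rw [h6] at hk
        linarith
    rw [card_range] at h1
    have h2 : ((G.card : ℕ) : ℝ) ≤ (⌊2 * Z / m⌋₊ : ℝ) + 1 := by exact_mod_cast h1
    have h3 := Nat.floor_le (show 0 ≤ 2 * Z / m by positivity)
    linarith

/-- nonzero pairwise coprime integers with sum zero -/
structure Adm {n : ℕ} (x : Fin n → ℤ) : Prop where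
  ne : ∀ i, x i ≠ 0
  cop : ∀ i j, i ≠ j → Int.gcd (x i) (x j) = 1
  sum : ∑ i, x i = 0

/-- the code: two coordinates are replaced by the cofactors of their radicals -/
noncomputable def code {n : ℕ} (b c : Fin n) (x : Fin n → ℤ) : Fin n → ℤ :=
  Function.update (Function.update x b (co (x b).natAbs : ℤ)) c (co (x c).natAbs : ℤ)

theorem code_c {n : ℕ} (b c : Fin n) (x : Fin n → ℤ) : code b c x c = (co (x c).natAbs : ℤ) := by
  unfold code
  rw [Function.update_self]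

theorem code_b {n : ℕ} {b c : Fin n} (hbc : b ≠ c) (x : Fin n → ℤ) :
    code b c x b = (co (x b).natAbs : ℤ) := by
  unfold code
  rw [Function.update_of_ne hbc, Function.update_self]

theorem code_i {n : ℕ} {b c i : Fin n} (hb : i ≠ b) (hc : i ≠ c) (x : Fin n → ℤ) :
    code b c x i = x i := by
  unfold code
  rw [Function.update_of_ne hc, Function.update_of_ne hb]

/-- the modulus -/
def mo (a : ℕ) : ℕ := a * rad a

theorem mo_pos {a : ℕ} (ha : a ≠ 0) : 0 < mo a := Nat.mul_pos (Nat.pos_of_ne_zero ha) (rad_pos a)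

/-- the fibres of the code -/
theorem fibre {n : ℕ} {b c : Fin n} (hbc : b ≠ c) (G : Finset (Fin n → ℤ)) (z : Fin n → ℤ) (Z : ℝ)
    (hZ : 0 ≤ Z) (hz : z b ≠ 0 ∧ z c ≠ 0)
    (hG : ∀ x ∈ G, Adm x ∧ |(x b : ℝ)| ≤ Z ∧ code b c x = z) :
    (G.card : ℝ) ≤ 1 + 2 * Z / ((mo (z b).natAbs * mo (z c).natAbs : ℕ) : ℝ) := by
  classical
  have hb : ∀ x ∈ G, (z b).natAbs = co (x b).natAbs := by
    intro x hx
    rw [← (hG x hx).2.2, code_b hbc, Int.natAbs_natCast]
  have hc : ∀ x ∈ G, (z c).natAbs = co (x c).natAbs := by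
    intro x hx
    rw [← (hG x hx).2.2, code_c, Int.natAbs_natCast]
  have hi : ∀ x ∈ G, ∀ y ∈ G, ∀ i, i ≠ b → i ≠ c → x i = y i := by
    intro x hx y hy i h1 h2
    have e1 := congrFun (hG x hx).2.2 i
    have e2 := congrFun (hG y hy).2.2 i
    rw [code_i h1 h2] at e1 e2
    rw [e1, e2]
  have hs : ∀ x ∈ G, ∀ y ∈ G, x b - y b = y c - x c := by
    intro x hx y hy
    have e1 := (hG x hx).1.sum
    have e2 := (hG y hy).1.sum
    have hcu : c ∈ univ.erase b := mem_erase.2 ⟨hbc.symm, mem_univ _⟩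
    rw [← add_sum_erase _ _ (mem_univ b), ← add_sum_erase _ _ hcu] at e1 e2
    have e3 : ∑ i ∈ (univ.erase b).erase c, x i = ∑ i ∈ (univ.erase b).erase c, y i := by
      refine sum_congr rfl fun i hii => ?_
      rw [mem_erase, mem_erase] at hii
      exact hi x hx y hy i hii.2.1 hii.1
    linarith
  have hinj : Set.InjOn (fun x : Fin n → ℤ => x b) (G : Set (Fin n → ℤ)) := by
    intro x hx y hy hxy
    simp only at hxy
    funext i
    by_cases h1 : i = b
    · rw [h1, hxy]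
    · by_cases h2 : i = c
      · have := hs x hx y hy
        rw [h2]
        linarith
      · exact hi x hx y hy i h1 h2
  rw [← Finset.card_image_of_injOn hinj]
  have hzb : (z b).natAbs ≠ 0 := Int.natAbs_ne_zero.2 hz.1
  have hzc : (z c).natAbs ≠ 0 := Int.natAbs_ne_zero.2 hz.2
  refine card_ap _ _ (Nat.mul_pos (mo_pos hzb) (mo_pos hzc)) Z hZ ?_ ?_
  · intro t ht
    obtain ⟨x, hx, rfl⟩ := mem_image.1 ht
    exact (hG x hx).2.1
  · intro s hs' t ht
    obtain ⟨x, hx, rfl⟩ := mem_image.1 hs'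
    obtain ⟨y, hy, rfl⟩ := mem_image.1 ht
    have d1 : ∀ w ∈ G, ((mo (z b).natAbs : ℕ) : ℤ) ∣ w b := by
      intro w hw
      have h1 := co_dvd (Int.natAbs_ne_zero.2 ((hG w hw).1.ne b))
      rw [← hb w hw] at h1
      exact Int.natCast_dvd.2 h1
    have d2 : ∀ w ∈ G, ((mo (z c).natAbs : ℕ) : ℤ) ∣ w c := by
      intro w hw
      have h1 := co_dvd (Int.natAbs_ne_zero.2 ((hG w hw).1.ne c))
      rw [← hc w hw] at h1
      exact Int.natCast_dvd.2 h1
    have h1 : ((mo (z b).natAbs : ℕ) : ℤ) ∣ x b - y b := dvd_sub (d1 x hx) (d1 y hy)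
    have h2 : ((mo (z c).natAbs : ℕ) : ℤ) ∣ x b - y b := by
      rw [hs x hx y hy]
      exact dvd_sub (d2 y hy) (d2 x hx)
    have h3 : IsCoprime ((mo (z b).natAbs : ℕ) : ℤ) ((mo (z c).natAbs : ℕ) : ℤ) := by
      have h4 : IsCoprime (x b) (x c) := Int.isCoprime_iff_gcd_eq_one.2 ((hG x hx).1.cop b c hbc)
      exact (h4.of_isCoprime_of_dvd_left (d1 x hx)).of_isCoprime_of_dvd_right (d2 x hx)
    show ((mo (z b).natAbs * mo (z c).natAbs : ℕ) : ℤ) ∣ x b - y b
    push_cast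
    exact h3.mul_dvd h1 h2

/-- the product of the radicals of the coordinates -/
noncomputable def PR {n : ℕ} (x : Fin n → ℤ) : ℝ := ∏ i, (rad (x i).natAbs : ℝ)

theorem PR_pos {n : ℕ} (x : Fin n → ℤ) : 0 < PR x :=
  Finset.prod_pos fun _ _ => by exact_mod_cast rad_pos _

/-- the product over the coordinates different from `b` and `c` -/
noncomputable def PR2 {n : ℕ} (b c : Fin n) (x : Fin n → ℤ) : ℝ :=
  ∏ i ∈ (univ.erase b).erase c, (rad (x i).natAbs : ℝ)

theorem PR_eq {n : ℕ} {b c : Fin n} (hbc : b ≠ c) (x : Fin n → ℤ) :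
    PR x = (rad (x b).natAbs : ℝ) * ((rad (x c).natAbs : ℝ) * PR2 b c x) := by
  unfold PR PR2
  have hcu : c ∈ univ.erase b := mem_erase.2 ⟨hbc.symm, mem_univ _⟩
  rw [← mul_prod_erase _ _ (mem_univ b), ← mul_prod_erase _ _ hcu]

theorem PR2_code {n : ℕ} (b c : Fin n) (x : Fin n → ℤ) : PR2 b c (code b c x) = PR2 b c x := by
  unfold PR2
  refine prod_congr rfl fun i hi => ?_
  rw [mem_erase, mem_erase] at hi
  rw [code_i hi.2.1 hi.1]

/-- the product of the radicals is small if two pairs are linked -/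
theorem prod_four {n : ℕ} {a b c e : Fin n} (hab : a ≠ b) (hac : a ≠ c) (hae : a ≠ e)
    (hbc : b ≠ c) (hbe : b ≠ e) (hce : c ≠ e) (H : ℕ) (r : Fin n → ℕ)
    (hr : ∀ i, r i ≤ H) (h1 : r a * r c ≤ H) (h2 : r b * r e ≤ H) :
    ∏ i, (r i : ℝ) ≤ (H : ℝ) ^ (n - 2) := by
  classical
  obtain ⟨S, hS⟩ : ∃ S : Finset (Fin n), S = {a, c, b, e} := ⟨_, rfl⟩
  have hcard : S.card = 4 := by
    rw [hS, card_insert_of_notMem, card_insert_of_notMem, card_insert_of_notMem, card_singleton]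
    · simpa using hbe
    · simp only [mem_insert, mem_singleton, not_or]
      exact ⟨hbc.symm, hce⟩
    · simp only [mem_insert, mem_singleton, not_or]
      exact ⟨hac, hab, hae⟩
  have hn : 4 ≤ n := by
    have := card_le_univ S
    rw [hcard, Fintype.card_fin] at this
    exact this
  have e1 : ∏ i ∈ S, (r i : ℝ) = ((r a * r c : ℕ) : ℝ) * ((r b * r e : ℕ) : ℝ) := by
    rw [hS, prod_insert, prod_insert, prod_insert, prod_singleton]
    · push_cast
      ring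
    · simpa using hbe
    · simp only [mem_insert, mem_singleton, not_or]
      exact ⟨hbc.symm, hce⟩
    · simp only [mem_insert, mem_singleton, not_or]
      exact ⟨hac, hab, hae⟩
  have e2 : ∏ i ∈ Sᶜ, (r i : ℝ) ≤ (H : ℝ) ^ (n - 4) := by
    calc ∏ i ∈ Sᶜ, (r i : ℝ) ≤ ∏ _i ∈ Sᶜ, (H : ℝ) :=
          prod_le_prod (fun _ _ => Nat.cast_nonneg _) fun i _ => by exact_mod_cast hr i
      _ = (H : ℝ) ^ (n - 4) := by
          rw [prod_const, card_compl, hcard, Fintype.card_fin]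
  rw [← prod_mul_prod_compl S]
  have h1' : ((r a * r c : ℕ) : ℝ) ≤ H := by exact_mod_cast h1
  have h2' : ((r b * r e : ℕ) : ℝ) ≤ H := by exact_mod_cast h2
  have e3 : (H : ℝ) ^ (n - 2) = (H : ℝ) * H * (H : ℝ) ^ (n - 4) := by
    have : n - 2 = (n - 4) + 2 := by omega
    rw [this, pow_add]
    ring
  rw [e1, e3]
  refine mul_le_mul (mul_le_mul h1' h2' (Nat.cast_nonneg _) (Nat.cast_nonneg _)) e2
    (prod_nonneg fun _ _ => Nat.cast_nonneg _) (by positivity)

/-- the sum of the inverses of the radicals -/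
noncomputable def SS (H : ℕ) : ℝ := ∑ z ∈ ZZ H, 1 / (rad z.natAbs : ℝ)

theorem sum_pi (n H : ℕ) : ∑ z ∈ Fintype.piFinset (fun _ : Fin n => ZZ H), 1 / PR z = SS H ^ n := by
  have h1 : ∀ z : Fin n → ℤ, 1 / PR z = ∏ i, (1 / (rad (z i).natAbs : ℝ)) := by
    intro z
    unfold PR
    rw [prod_div_distrib, prod_const_one]
  simp only [h1]
  rw [← Finset.prod_univ_sum (fun _ : Fin n => ZZ H) (fun _ z => 1 / (rad z.natAbs : ℝ))]
  unfold SS
  rw [prod_const, card_univ, Fintype.card_fin]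

/-- the bound for one cell -/
theorem cell {n : ℕ} {a b c e : Fin n} (hab : a ≠ b) (hac : a ≠ c) (hae : a ≠ e)
    (hbc : b ≠ c) (hbe : b ≠ e) (hce : c ≠ e) {H J : ℕ} (hH : 1 ≤ H) (hJ : 1 ≤ J) {R : ℝ}
    (hR : 0 ≤ R)
    (G : Finset (Fin n → ℤ)) (hG : ∀ x ∈ G, Adm x ∧ (∀ i, (x i).natAbs ≤ H) ∧
      H ≤ 2 * n * (x c).natAbs ∧ J ≤ (x b).natAbs ∧ (x b).natAbs ≤ 2 * J ∧
      rad (x a).natAbs ≤ rad (x c).natAbs ∧ rad (x e).natAbs ≤ rad (x b).natAbs ∧ PR x ≤ R) :
    (G.card : ℝ) ≤ ((H : ℝ) ^ (n - 2) + 8 * n * R / H) * SS H ^ n := by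
  classical
  have hH0 : (0 : ℝ) < H := by exact_mod_cast hH
  have hJ0 : (0 : ℝ) < J := by exact_mod_cast hJ
  obtain ⟨T, hT⟩ : ∃ T, T = G.image (code b c) := ⟨_, rfl⟩
  have h1 : (G.card : ℝ) = ∑ z ∈ T, ((G.filter fun x => code b c x = z).card : ℝ) := by
    have := Finset.card_eq_sum_card_image (code b c) G
    rw [hT]
    exact_mod_cast this
  have h2 : ∀ z ∈ T, ((G.filter fun x => code b c x = z).card : ℝ) ≤
      ((H : ℝ) ^ (n - 2) + 8 * n * R / H) * (1 / PR z) := by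
    intro z hz
    rw [hT] at hz
    obtain ⟨x, hx, rfl⟩ := mem_image.1 hz
    obtain ⟨k1, k2, k3, k4, k5, k6, k7, k8⟩ := hG x hx
    have hxb := Int.natAbs_ne_zero.2 (k1.ne b)
    have hxc := Int.natAbs_ne_zero.2 (k1.ne c)
    have hzb : (code b c x b).natAbs = co (x b).natAbs := by rw [code_b hbc, Int.natAbs_natCast]
    have hzc : (code b c x c).natAbs = co (x c).natAbs := by rw [code_c, Int.natAbs_natCast]
    have hza : (code b c x a).natAbs = (x a).natAbs := by rw [code_i hab hac]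
    have hze : (code b c x e).natAbs = (x e).natAbs := by rw [code_i hbe.symm hce.symm]
    have hqb := co_pos hxb
    have hqc := co_pos hxc
    have h3 := fibre hbc (G.filter fun y => code b c y = code b c x) (code b c x) (2 * J : ℝ)
      (by positivity) ⟨Int.natAbs_ne_zero.1 (by rw [hzb]; exact hqb.ne'),
        Int.natAbs_ne_zero.1 (by rw [hzc]; exact hqc.ne')⟩ (by
        intro y hy
        rw [mem_filter] at hy
        refine ⟨(hG y hy.1).1, ?_, hy.2⟩
        rw [← Int.cast_abs, Int.abs_eq_natAbs]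
        exact_mod_cast (hG y hy.1).2.2.2.2.1)
    refine h3.trans ?_
    rw [hzb, hzc]
    have hPR := PR_pos (code b c x)
    -- the first term
    have f1 : 1 ≤ (H : ℝ) ^ (n - 2) * (1 / PR (code b c x)) := by
      rw [mul_one_div, le_div_iff₀ hPR, one_mul]
      refine prod_four hab hac hae hbc hbe hce H (fun i => rad (code b c x i).natAbs) ?_ ?_ ?_
      · intro i
        show rad (code b c x i).natAbs ≤ H
        by_cases hib : i = b
        · rw [hib, hzb]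
          exact (rad_le hqb.ne').trans ((co_le _).trans (k2 b))
        · by_cases hic : i = c
          · rw [hic, hzc]
            exact (rad_le hqc.ne').trans ((co_le _).trans (k2 c))
          · rw [code_i hib hic]
            exact (rad_le (Int.natAbs_ne_zero.2 (k1.ne i))).trans (k2 i)
      · show rad (code b c x a).natAbs * rad (code b c x c).natAbs ≤ H
        rw [hza, hzc]
        calc rad (x a).natAbs * rad (co (x c).natAbs) ≤ rad (x c).natAbs * co (x c).natAbs :=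
              Nat.mul_le_mul k6 (rad_le hqc.ne')
          _ = (x c).natAbs := rad_mul_co _
          _ ≤ H := k2 c
      · show rad (code b c x b).natAbs * rad (code b c x e).natAbs ≤ H
        rw [hze, hzb, mul_comm]
        calc rad (x e).natAbs * rad (co (x b).natAbs) ≤ rad (x b).natAbs * co (x b).natAbs :=
              Nat.mul_le_mul k7 (rad_le hqb.ne')
          _ = (x b).natAbs := rad_mul_co _
          _ ≤ H := k2 b
    -- the second term
    have f2 : 2 * (2 * (J : ℝ)) / ((mo (co (x b).natAbs) * mo (co (x c).natAbs) : ℕ) : ℝ) ≤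
        8 * n * R / H * (1 / PR (code b c x)) := by
      have hmo : (0 : ℝ) < ((mo (co (x b).natAbs) * mo (co (x c).natAbs) : ℕ) : ℝ) := by
        exact_mod_cast Nat.mul_pos (mo_pos hqb.ne') (mo_pos hqc.ne')
      have e1 := PR_eq hbc (code b c x)
      rw [PR2_code, hzb, hzc] at e1
      have e2 := PR_eq hbc x
      obtain ⟨rb, hrb⟩ : ∃ t : ℝ, t = (rad (co (x b).natAbs) : ℝ) := ⟨_, rfl⟩
      obtain ⟨rc, hrc⟩ : ∃ t : ℝ, t = (rad (co (x c).natAbs) : ℝ) := ⟨_, rfl⟩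
      obtain ⟨qb, hqb'⟩ : ∃ t : ℝ, t = (co (x b).natAbs : ℝ) := ⟨_, rfl⟩
      obtain ⟨qc, hqc'⟩ : ∃ t : ℝ, t = (co (x c).natAbs : ℝ) := ⟨_, rfl⟩
      have hrb0 : 0 < rb := by rw [hrb]; exact_mod_cast rad_pos _
      have hrc0 : 0 < rc := by rw [hrc]; exact_mod_cast rad_pos _
      have hqb0 : 0 < qb := by rw [hqb']; exact_mod_cast hqb
      have hqc0 : 0 < qc := by rw [hqc']; exact_mod_cast hqc
      obtain ⟨p, hp⟩ : ∃ t : ℝ, t = PR2 b c x := ⟨_, rfl⟩
      have hp0 : 0 < p := by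
        rw [hp]
        exact Finset.prod_pos fun _ _ => by exact_mod_cast rad_pos _
      have e3 : ((mo (co (x b).natAbs) * mo (co (x c).natAbs) : ℕ) : ℝ) = qb * rb * (qc * rc) := by
        rw [hqb', hrb, hqc', hrc]
        unfold mo
        push_cast
        ring
      have e4 : (rad (x b).natAbs : ℝ) * qb = ((x b).natAbs : ℝ) := by
        rw [hqb']
        exact_mod_cast rad_mul_co _
      have e5 : (rad (x c).natAbs : ℝ) * qc = ((x c).natAbs : ℝ) := by
        rw [hqc']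
        exact_mod_cast rad_mul_co _
      rw [← hp, ← hrb, ← hrc] at e1
      rw [← hp] at e2
      have k3' : (H : ℝ) ≤ 2 * n * ((x c).natAbs : ℝ) := by exact_mod_cast k3
      have k4' : (J : ℝ) ≤ ((x b).natAbs : ℝ) := by exact_mod_cast k4
      have key : (J : ℝ) * H * p ≤ 2 * n * R * (qb * qc) := by
        calc (J : ℝ) * H * p ≤ ((x b).natAbs : ℝ) * (2 * n * ((x c).natAbs : ℝ)) * p :=
              mul_le_mul_of_nonneg_right (mul_le_mul k4' k3' hH0.le (Nat.cast_nonneg _)) hp0.le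
          _ = 2 * n * PR x * (qb * qc) := by
              rw [← e4, ← e5, e2]
              ring
          _ ≤ 2 * n * R * (qb * qc) := by
              refine mul_le_mul_of_nonneg_right (mul_le_mul_of_nonneg_left k8 (by positivity))
                (by positivity)
      rw [e3, e1, div_le_iff₀ (by positivity)]
      have e6 : 8 * n * R / H * (1 / (rb * (rc * p))) * (qb * rb * (qc * rc)) =
          (4 * (2 * n * R * (qb * qc))) / (H * p) := by
        field_simp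
        ring
      rw [e6, le_div_iff₀ (by positivity)]
      linarith
    calc 1 + 2 * (2 * (J : ℝ)) / ((mo (co (x b).natAbs) * mo (co (x c).natAbs) : ℕ) : ℝ) ≤
          (H : ℝ) ^ (n - 2) * (1 / PR (code b c x)) + 8 * n * R / H * (1 / PR (code b c x)) :=
          add_le_add f1 f2
      _ = _ := by ring
  rw [h1]
  refine (sum_le_sum h2).trans ?_
  rw [← mul_sum]
  refine mul_le_mul_of_nonneg_left ?_ (by positivity)
  rw [← sum_pi]
  refine sum_le_sum_of_subset_of_nonneg ?_ fun z _ _ => one_div_nonneg.2 (PR_pos z).le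
  intro z hz
  rw [hT] at hz
  obtain ⟨x, hx, rfl⟩ := mem_image.1 hz
  obtain ⟨k1, k2, -⟩ := hG x hx
  have hxb := Int.natAbs_ne_zero.2 (k1.ne b)
  have hxc := Int.natAbs_ne_zero.2 (k1.ne c)
  rw [Fintype.mem_piFinset]
  intro i
  rw [mem_ZZ]
  by_cases hic : i = c
  · rw [hic, code_c, Int.natAbs_natCast]
    exact ⟨by exact_mod_cast (co_pos hxc).ne', (co_le _).trans (k2 c)⟩
  · by_cases hib : i = b
    · rw [hib, code_b hbc, Int.natAbs_natCast]
      exact ⟨by exact_mod_cast (co_pos hxb).ne', (co_le _).trans (k2 b)⟩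
    · rw [code_i hib hic]
      exact ⟨k1.ne i, k2 i⟩

/-- the choice of the indices -/
theorem choose_idx {n : ℕ} (hn : 4 ≤ n) {H : ℕ} (hH : 1 ≤ H) {x : Fin n → ℤ} (hx : Adm x)
    (hmax : ∃ i, H ≤ 2 * (x i).natAbs) :
    ∃ a b c e : Fin n, (a ≠ b ∧ a ≠ c ∧ a ≠ e ∧ b ≠ c ∧ b ≠ e ∧ c ≠ e) ∧
      H ≤ 2 * n * (x c).natAbs ∧ rad (x a).natAbs ≤ rad (x c).natAbs ∧
      rad (x e).natAbs ≤ rad (x b).natAbs := by
  classical
  obtain ⟨i, hi⟩ := hmax
  have hn0 : 1 ≤ n := by omega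
  have hi' : H ≤ 2 * n * (x i).natAbs := by
    calc H ≤ 2 * (x i).natAbs := hi
      _ ≤ 2 * n * (x i).natAbs := by
          refine Nat.mul_le_mul_right _ ?_
          omega
  obtain ⟨j, hji, hj⟩ : ∃ j, j ≠ i ∧ H ≤ 2 * n * (x j).natAbs := by
    by_contra hcon
    push Not at hcon
    have h1 : x i = -∑ k ∈ univ.erase i, x k := by
      have h := hx.sum
      rw [← add_sum_erase _ _ (mem_univ i)] at h
      linarith
    have h2 : (x i).natAbs ≤ ∑ k ∈ univ.erase i, (x k).natAbs := by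
      rw [h1, Int.natAbs_neg]
      exact Int.natAbs_sum_le _ _
    have h3 : 2 * n * (x i).natAbs ≤ ∑ k ∈ univ.erase i, 2 * n * (x k).natAbs := by
      rw [← mul_sum]
      exact Nat.mul_le_mul_left _ h2
    have h4 : ∑ k ∈ univ.erase i, 2 * n * (x k).natAbs ≤ ∑ _k ∈ univ.erase i, H :=
      sum_le_sum fun k hk => (hcon k (mem_erase.1 hk).1).le
    rw [sum_const, card_erase_of_mem (mem_univ i), card_univ, Fintype.card_fin, smul_eq_mul] at h4
    have h5 : n * H ≤ (n - 1) * H := by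
      calc n * H ≤ n * (2 * (x i).natAbs) := Nat.mul_le_mul_left _ hi
        _ = 2 * n * (x i).natAbs := by ring
        _ ≤ (n - 1) * H := h3.trans h4
    have h6 : n ≤ n - 1 := Nat.le_of_mul_le_mul_right h5 hH
    omega
  -- the two large ones
  obtain ⟨a, c, hac, hc, hrad, hset⟩ : ∃ a c : Fin n, a ≠ c ∧ H ≤ 2 * n * (x c).natAbs ∧
      rad (x a).natAbs ≤ rad (x c).natAbs ∧ ({a, c} : Finset (Fin n)) = {i, j} := by
    rcases le_total (rad (x i).natAbs) (rad (x j).natAbs) with h | h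
    · exact ⟨i, j, hji.symm, hj, h, rfl⟩
    · exact ⟨j, i, hji, hi', h, pair_comm _ _⟩
  obtain ⟨S, hS⟩ : ∃ S : Finset (Fin n), S = (univ.erase a).erase c := ⟨_, rfl⟩
  have hcS : c ∈ univ.erase a := mem_erase.2 ⟨hac.symm, mem_univ _⟩
  have hScard : S.card = n - 2 := by
    rw [hS, card_erase_of_mem hcS, card_erase_of_mem (mem_univ a), card_univ, Fintype.card_fin]
    omega
  have hSne : S.Nonempty := by
    rw [← card_pos, hScard]
    omega
  obtain ⟨b, hb, hbmax⟩ := S.exists_max_image (fun k => rad (x k).natAbs) hSne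
  have hSe : (S.erase b).Nonempty := by
    rw [← card_pos, card_erase_of_mem hb, hScard]
    omega
  obtain ⟨e, he⟩ := hSe
  rw [mem_erase] at he
  have hbm := hb
  have hem := he.2
  rw [hS, mem_erase, mem_erase] at hbm hem
  exact ⟨a, b, c, e, ⟨hbm.2.1.symm, hac, hem.2.1.symm, hbm.1, he.1.symm, hem.1.symm⟩, hc, hrad,
    hbmax e he.2⟩

/-- the bound for a block of heights -/
theorem block {n : ℕ} (hn : 4 ≤ n) {H : ℕ} (hH : 1 ≤ H) {R : ℝ} (hR : 0 ≤ R)
    (G : Finset (Fin n → ℤ)) (hG : ∀ x ∈ G, Adm x ∧ (∀ i, (x i).natAbs ≤ H) ∧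
      (∃ i, H ≤ 2 * (x i).natAbs) ∧ PR x ≤ R) :
    (G.card : ℝ) ≤ (n : ℝ) ^ 4 * (Nat.log 2 H + 1) *
      (((H : ℝ) ^ (n - 2) + 8 * n * R / H) * SS H ^ n) := by
  classical
  have hex : ∀ x : Fin n → ℤ, ∃ t : (Fin n × Fin n × Fin n × Fin n) × ℕ, x ∈ G →
      (t.2 ≤ Nat.log 2 H ∧
      (t.1.1 ≠ t.1.2.1 ∧ t.1.1 ≠ t.1.2.2.1 ∧ t.1.1 ≠ t.1.2.2.2 ∧ t.1.2.1 ≠ t.1.2.2.1 ∧
        t.1.2.1 ≠ t.1.2.2.2 ∧ t.1.2.2.1 ≠ t.1.2.2.2) ∧
      H ≤ 2 * n * (x t.1.2.2.1).natAbs ∧ 2 ^ t.2 ≤ (x t.1.2.1).natAbs ∧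
      (x t.1.2.1).natAbs ≤ 2 * 2 ^ t.2 ∧
      rad (x t.1.1).natAbs ≤ rad (x t.1.2.2.1).natAbs ∧
      rad (x t.1.2.2.2).natAbs ≤ rad (x t.1.2.1).natAbs) := by
    intro x
    by_cases hx : x ∈ G
    · obtain ⟨h1, h2, h3, h4⟩ := hG x hx
      obtain ⟨a, b, c, e, k1, k2, k3, k4⟩ := choose_idx hn hH h1 h3
      have hb := Int.natAbs_ne_zero.2 (h1.ne b)
      refine ⟨((a, b, c, e), Nat.log 2 (x b).natAbs), fun _ => ⟨by
        show Nat.log 2 _ ≤ _
        exact Nat.log_mono_right (h2 b), k1, k2,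
        Nat.pow_log_le_self 2 hb, ?_, k3, k4⟩⟩
      have := Nat.lt_pow_succ_log_self (b := 2) (by norm_num) (x b).natAbs
      rw [pow_succ] at this
      show (x b).natAbs ≤ 2 * 2 ^ Nat.log 2 (x b).natAbs
      omega
    · have : Inhabited (Fin n) := ⟨⟨0, by omega⟩⟩
      exact ⟨default, fun h => absurd h hx⟩
  choose f hf using hex
  have hmaps : ∀ x ∈ G, f x ∈ (univ : Finset (Fin n × Fin n × Fin n × Fin n)) ×ˢ
      range (Nat.log 2 H + 1) := by
    intro x hx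
    rw [mem_product, mem_range]
    exact ⟨mem_univ _, by have := (hf x hx).1; omega⟩
  have h1 := Finset.card_eq_sum_card_fiberwise (fun x hx => hmaps x hx)
  rw [h1]
  push_cast
  refine (sum_le_sum (g := fun _ => ((H : ℝ) ^ (n - 2) + 8 * n * R / H) * SS H ^ n) ?_).trans ?_
  · intro t ht
    rcases (G.filter fun x => f x = t).eq_empty_or_nonempty with h0 | ⟨x₀, hx₀⟩
    · rw [h0, card_empty, Nat.cast_zero]
      have : 0 ≤ SS H := sum_nonneg fun _ _ => by positivity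
      positivity
    · rw [mem_filter] at hx₀
      obtain ⟨-, ⟨d1, d2, d3, d4, d5, d6⟩, -⟩ := hf x₀ hx₀.1
      rw [hx₀.2] at d1 d2 d3 d4 d5 d6
      refine cell (a := t.1.1) (b := t.1.2.1) (c := t.1.2.2.1) (e := t.1.2.2.2) d1 d2 d3 d4 d5 d6
        hH (J := 2 ^ t.2) Nat.one_le_two_pow hR _ ?_
      intro x hx
      rw [mem_filter] at hx
      obtain ⟨g1, g2, g3, g4⟩ := hG x hx.1
      obtain ⟨-, -, m1, m2, m3, m4, m5⟩ := hf x hx.1
      rw [hx.2] at m1 m2 m3 m4 m5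
      exact ⟨g1, g2, m1, m2, m3, m4, m5, g4⟩
  · rw [sum_const, card_product, card_univ, card_range, nsmul_eq_mul]
    refine le_of_eq ?_
    simp only [Fintype.card_prod, Fintype.card_fin]
    push_cast
    ring

theorem SS_le (δ : ℝ) (hδ : 0 < δ) : ∃ C : ℝ, 1 ≤ C ∧ ∀ H : ℕ, 1 ≤ H → SS H ≤ C * (H : ℝ) ^ δ := by
  obtain ⟨C, hC, h⟩ := sum_inv_rad δ hδ
  refine ⟨2 * C + 1, by linarith, fun H hH => ?_⟩
  have h1 := sum_ZZ H (fun k => 1 / (rad k : ℝ)) fun k => by positivity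
  have h2 := h H hH
  have h3 : (0 : ℝ) ≤ (H : ℝ) ^ δ := by positivity
  calc SS H ≤ 2 * ∑ V ∈ Icc 1 H, 1 / (rad V : ℝ) := h1
    _ ≤ 2 * (C * (H : ℝ) ^ δ) := by linarith
    _ ≤ (2 * C + 1) * (H : ℝ) ^ δ := by nlinarith

theorem log_le (δ : ℝ) (hδ : 0 < δ) : ∃ C : ℝ, 1 ≤ C ∧ ∀ H : ℕ, 1 ≤ H →
    (Nat.log 2 H : ℝ) + 1 ≤ C * (H : ℝ) ^ δ := by
  refine ⟨2 / δ + 1, by linarith [show 0 < 2 / δ by positivity], fun H hH => ?_⟩
  have hH0 : (0 : ℝ) < H := by exact_mod_cast hH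
  have hH1 : (1 : ℝ) ≤ H := by exact_mod_cast hH
  have h1 : (Nat.log 2 H : ℝ) * Real.log 2 ≤ Real.log H := by
    rw [← Real.log_pow]
    refine Real.log_le_log (by positivity) ?_
    exact_mod_cast Nat.pow_log_le_self 2 (by omega)
  have h2 : Real.log H ≤ (H : ℝ) ^ δ / δ := Real.log_le_rpow_div hH0.le hδ
  have h3 := Real.log_two_gt_d9
  have h4 : (1 : ℝ) ≤ (H : ℝ) ^ δ := Real.one_le_rpow hH1 hδ.le
  have h5 : (Nat.log 2 H : ℝ) ≤ 2 * ((H : ℝ) ^ δ / δ) := by
    have h6 : (0 : ℝ) ≤ (Nat.log 2 H : ℝ) := Nat.cast_nonneg _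
    nlinarith
  calc (Nat.log 2 H : ℝ) + 1 ≤ 2 * ((H : ℝ) ^ δ / δ) + (H : ℝ) ^ δ := by linarith
    _ = (2 / δ + 1) * (H : ℝ) ^ δ := by ring

/-- **The upper bound for tuples of a given order of magnitude.** -/
theorem block_le {n : ℕ} (hn : 4 ≤ n) (δ : ℝ) (hδ : 0 < δ) : ∃ C : ℝ, 1 ≤ C ∧ ∀ H : ℕ, 1 ≤ H →
    ∀ R : ℝ, 0 ≤ R → ∀ G : Finset (Fin n → ℤ), (∀ x ∈ G, Adm x ∧ (∀ i, (x i).natAbs ≤ H) ∧
      (∃ i, H ≤ 2 * (x i).natAbs) ∧ PR x ≤ R) →
    (G.card : ℝ) ≤ C * (H : ℝ) ^ δ * ((H : ℝ) ^ (n - 2) + R / H) := by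
  have hn0 : (0 : ℝ) < n := by exact_mod_cast (by omega : 0 < n)
  have hn1 : (1 : ℝ) ≤ n := by exact_mod_cast (by omega : 1 ≤ n)
  obtain ⟨δ', hδ'⟩ : ∃ δ' : ℝ, δ' = δ / (n + 1) := ⟨_, rfl⟩
  have hδ'0 : 0 < δ' := by rw [hδ']; positivity
  obtain ⟨C1, hC1, h1⟩ := SS_le δ' hδ'0
  obtain ⟨C2, hC2, h2⟩ := log_le δ' hδ'0
  have hC1n : 1 ≤ C1 ^ n := one_le_pow₀ hC1
  refine ⟨(n : ℝ) ^ 4 * C2 * (8 * n * C1 ^ n), ?_, fun H hH R hR G hG => ?_⟩
  · have e1 : 1 ≤ (n : ℝ) ^ 4 := one_le_pow₀ hn1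
    have e2 : 1 ≤ (n : ℝ) ^ 4 * C2 := one_le_mul_of_one_le_of_one_le e1 hC2
    have e3 : 1 ≤ 8 * (n : ℝ) * C1 ^ n :=
      one_le_mul_of_one_le_of_one_le (by linarith) hC1n
    exact one_le_mul_of_one_le_of_one_le e2 e3
  · have hH0 : (0 : ℝ) < H := by exact_mod_cast hH
    have k1 := block hn hH hR G hG
    have k2 := h1 H hH
    have k3 := h2 H hH
    have hSS : 0 ≤ SS H := sum_nonneg fun _ _ => by positivity
    have k4 : SS H ^ n ≤ C1 ^ n * ((H : ℝ) ^ δ') ^ n := by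
      rw [← mul_pow]
      exact pow_le_pow_left₀ hSS k2 n
    have k5 : (H : ℝ) ^ (n - 2) + 8 * n * R / H ≤ 8 * n * ((H : ℝ) ^ (n - 2) + R / H) := by
      have e1 : (H : ℝ) ^ (n - 2) ≤ 8 * n * (H : ℝ) ^ (n - 2) :=
        le_mul_of_one_le_left (by positivity) (by linarith)
      have e2 : 8 * n * R / H = 8 * n * (R / H) := by ring
      rw [e2]
      linarith
    have k6 : (H : ℝ) ^ δ' * ((H : ℝ) ^ δ') ^ n = (H : ℝ) ^ δ := by
      rw [← pow_succ', ← Real.rpow_natCast, ← Real.rpow_mul hH0.le]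
      congr 1
      rw [hδ']
      push_cast
      field_simp
    have k7 : 0 ≤ (H : ℝ) ^ (n - 2) + R / H := by positivity
    calc (G.card : ℝ) ≤ (n : ℝ) ^ 4 * (Nat.log 2 H + 1) *
          (((H : ℝ) ^ (n - 2) + 8 * n * R / H) * SS H ^ n) := k1
      _ ≤ (n : ℝ) ^ 4 * (C2 * (H : ℝ) ^ δ') *
          ((8 * n * ((H : ℝ) ^ (n - 2) + R / H)) * (C1 ^ n * ((H : ℝ) ^ δ') ^ n)) := by
          refine mul_le_mul (mul_le_mul_of_nonneg_left k3 (by positivity)) ?_ (by positivity)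
            (by positivity)
          exact mul_le_mul k5 k4 (by positivity) (by positivity)
      _ = (n : ℝ) ^ 4 * C2 * (8 * n * C1 ^ n) * ((H : ℝ) ^ δ' * ((H : ℝ) ^ δ') ^ n) *
          ((H : ℝ) ^ (n - 2) + R / H) := by ring
      _ = _ := by rw [k6]

end Pool.Agent.Q38.NC
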